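import Pool.Agent.N602.PCFinal

/-!
# Planted clique: the separating polynomials have different means (helper800)

The proof is the first half of `Pool.Agent.N602.PC.main` (helper602); in addition we record that the
means under the two distributions are different for all large `n`, so the strong separation is not the
trivial one of constant polynomials.
-/

open scoped BigOperators
open Filter Asymptotics
open Pool.Agent.N602.PC

namespace Pool.Agent.N800.PC

theorem sep (k : ℕ → ℝ) (hk0 : ∀ n, 0 ≤ k n) (hkn : ∀ n, k n ≤ n)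
    (hk : Tendsto (fun n : ℕ => Real.log n ^ 4 / k n) atTop (nhds 0))
    (hk1 : ∀ᶠ n in atTop, 1 ≤ k n) :
    ∃ f : ∀ n : ℕ, MvPolynomial (Edge n) ℝ,
      (∀ n, (f n).totalDegree ≤ ⌈10000 * Real.log n ^ 2⌉₊) ∧
      (∀ᶠ n in atTop, meanP (k n) (f n) ≠ meanQ (f n)) ∧
      (fun n => Real.sqrt (max (varP (k n) (f n)) (varQ (f n)))) =o[atTop]
        (fun n => |meanP (k n) (f n) - meanQ (f n)|) := by
  classical
  have hb := bounds k hkn hk hk1
  have hn1 : Tendsto (fun n : ℕ => (1:ℝ) / n) atTop (nhds 0) := tendsto_one_div_atTop_nhds_zero_nat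
  have hL2 : Tendsto (fun n : ℕ => Real.log n ^ 2 / k n) atTop (nhds 0) := by
    refine squeeze_zero' ?_ ?_ hk
    · filter_upwards with n
      exact div_nonneg (sq_nonneg _) (hk0 n)
    · filter_upwards [hk1, eventually_log_ge 1] with n h1 h2
      rw [div_le_div_iff_of_pos_right (by linarith)]
      exact pow_le_pow_right₀ h2 (by norm_num)
  have key : ∃ f : ∀ n : ℕ, MvPolynomial (Edge n) ℝ,
      (∀ n, (f n).totalDegree ≤ ⌈10000 * Real.log n ^ 2⌉₊) ∧
      ∃ w : ℕ → ℝ, Tendsto w atTop (nhds 0) ∧ ∀ᶠ n in atTop, ∃ μ : ℝ, 0 < μ ∧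
        μ / 2 ≤ |meanP (k n) (f n) - meanQ (f n)| ∧
        Real.sqrt (max (varP (k n) (f n)) (varQ (f n))) ≤ w n * (μ / 2) := by
    let f : ∀ n : ℕ, MvPolynomial (Edge n) ℝ := fun n =>
      if h : 2 * (tN n * mN n) + 1 ≤ n ∧ (2 * tN n + 1) ^ 2 ≤ ⌈10000 * Real.log n ^ 2⌉₊ then
        cpoly (tset (exists_blocks n (tN n) (mN n) h.1).choose) else 0
    refine ⟨f, ?_, ?_⟩
    · intro n
      simp only [f]
      split_ifs with h
      · have he := (exists_blocks n (tN n) (mN n) h.1).choose_spec.choose_spec.choose_spec.1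
        refine le_trans (degree_cpoly _ (tN n) fun g => (card_tset he g).le) ?_
        refine le_trans ?_ h.2
        exact Nat.pow_le_pow_left (by omega) 2
      · simp
    · have hw : Tendsto (fun n : ℕ => 2 * Real.sqrt (40000 * (Real.log n ^ 2 / k n) + 8 * (1 / n)))
          atTop (nhds 0) := by
        have h1 : Tendsto (fun n : ℕ => 40000 * (Real.log n ^ 2 / k n) + 8 * ((1:ℝ) / n)) atTop
            (nhds 0) := by
          simpa using (hL2.const_mul 40000).add (hn1.const_mul 8)
        have h2 := (Real.continuous_sqrt.tendsto 0).comp h1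
        rw [Real.sqrt_zero] at h2
        simpa using h2.const_mul 2
      refine ⟨_, hw, ?_⟩
      filter_upwards [hb, eventually_ge_atTop 16] with n hb hn16
      obtain ⟨hm, hle, hp, hp1, hδ0, hδ, hα1, hα, hα2, hdeg, hlog⟩ := hb
      have hn16' : (16:ℝ) ≤ n := by exact_mod_cast hn16
      have hf : f n = cpoly (tset (exists_blocks n (tN n) (mN n) hle).choose) := by
        simp only [f]
        rw [dif_pos ⟨hle, hdeg⟩]
      have he := (exists_blocks n (tN n) (mN n) hle).choose_spec.choose_spec.choose_spec.1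
      obtain ⟨d1, d2, d3, d4⟩ := detection (s := sN n) he rfl hm (k n) hp hp1 (δN k n) (αN k n)
        rfl rfl
      rw [← hf] at d1 d2 d3 d4
      set μ : ℝ := (mN n * (k n / n)) ^ tN n with hμ
      have hm' : (0:ℝ) < mN n := by exact_mod_cast hm
      have hμ0 : 0 < μ := by positivity
      set w : ℝ := 40000 * (Real.log n ^ 2 / k n) + 8 * (1 / n) with hwdef
      have hn4 : 2 / (n:ℝ) ^ 4 ≤ 2 * (1 / n) * (1/64) := by
        rw [div_le_iff₀ (by positivity)]
        have : 2 * (1 / (n:ℝ)) * (1/64) * (n:ℝ) ^ 4 = (n:ℝ) ^ 3 / 32 := by field_simp; norm_num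
        rw [this]
        nlinarith [pow_le_pow_left₀ (by norm_num : (0:ℝ) ≤ 16) hn16' 3]
      have hδα : δN k n * αN k n ≤ 4 * (1 / n) * (1/64) := by
        have h1 : δN k n * αN k n ≤ (2 * (1 / n) * (1/64)) * 2 := by
          apply mul_le_mul (hδ.trans hn4) hα2 (by linarith) (by positivity)
        linarith
      have hn0 : (0:ℝ) < 1 / n := by positivity
      have hn116 : (1:ℝ) / n ≤ 1 / 16 := by
        rw [div_le_div_iff₀ (by linarith) (by norm_num)]; linarith
      have hδα0 : 0 ≤ δN k n * αN k n := mul_nonneg hδ0 (by linarith)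
      have hw0 : 0 ≤ w := by
        have : 0 ≤ Real.log n ^ 2 / k n := div_nonneg (sq_nonneg _) (hk0 n)
        positivity
      have hvar : max (varP (k n) (f n)) (varQ (f n)) ≤ μ ^ 2 * w := by
        apply max_le
        · refine d2.trans (mul_le_mul_of_nonneg_left ?_ (sq_nonneg _))
          rw [hwdef]; linarith
        · refine d3.trans (mul_le_mul_of_nonneg_left ?_ (sq_nonneg _))
          have : 0 ≤ Real.log n ^ 2 / k n := div_nonneg (sq_nonneg _) (hk0 n)
          rw [hwdef]; linarith
      have hsq : Real.sqrt (max (varP (k n) (f n)) (varQ (f n))) ≤ μ * Real.sqrt w := by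
        calc _ ≤ Real.sqrt (μ ^ 2 * w) := Real.sqrt_le_sqrt hvar
          _ = μ * Real.sqrt w := by rw [Real.sqrt_mul (sq_nonneg _), Real.sqrt_sq hμ0.le]
      have hQ : |meanQ (f n)| ≤ μ / 2 := by
        apply abs_le_of_sq_le_sq _ (by positivity)
        refine d4.trans ?_
        have : δN k n * αN k n ≤ 1 / 4 := by linarith
        nlinarith [sq_nonneg μ]
      have hdiff : μ / 2 ≤ |meanP (k n) (f n) - meanQ (f n)| := by
        have h1 := (abs_le.mp hQ).2
        refine le_trans ?_ (le_abs_self _)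
        linarith
      refine ⟨μ, hμ0, hdiff, ?_⟩
      calc Real.sqrt (max (varP (k n) (f n)) (varQ (f n))) ≤ μ * Real.sqrt w := hsq
        _ = 2 * Real.sqrt w * (μ / 2) := by ring
  obtain ⟨f, h1, w, hw, h2⟩ := key
  refine ⟨f, h1, ?_, ?_⟩
  · filter_upwards [h2] with n hn
    obtain ⟨μ, hμ, h3, -⟩ := hn
    intro he
    rw [he, sub_self, abs_zero] at h3
    linarith
  · have hw' : Tendsto (fun n => max (w n) 0) atTop (nhds 0) := by
      have := hw.max (tendsto_const_nhds (x := (0 : ℝ)))
      simpa using this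
    refine isLittleO_of_le hw' ?_
    filter_upwards [h2] with n hn
    obtain ⟨μ, hμ, h3, h4⟩ := hn
    rw [abs_of_nonneg (Real.sqrt_nonneg _), abs_abs]
    refine h4.trans ?_
    calc w n * (μ / 2) ≤ max (w n) 0 * (μ / 2) :=
          mul_le_mul_of_nonneg_right (le_max_left _ _) (by positivity)
      _ ≤ _ := mul_le_mul_of_nonneg_left h3 (le_max_right _ _)

end Pool.Agent.N800.PC
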